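import Pool.Agent.FS.AnyBase69.Min

namespace Pool.Agent.Results.MP_ddde1e_an.AnyBase

open Pool.Agent.FS.AnyBase69 Filter

/-- Over every infinite minimal base system, from every starting point and for every torus of
dimension `d ≥ 1`: the gaps of `n` tend to infinity if and only if every torus-valued sequence is
the fibre coordinate along `n` of a skew product, which can then be chosen minimal and with a real
cocycle. -/
theorem result (Y : Type) [MetricSpace Y] [CompactSpace Y] [Infinite Y] (R : Y → Y)
    (hR : Continuous R) (hmin : ∀ x, DenseRange fun j : ℕ => R^[j] x) (y : Y)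
    (d : ℕ) (hd : 0 < d) (n : ℕ → ℕ) (hn : StrictMono n) :
    List.TFAE [Tendsto (fun k : ℕ => n (k + 1) - n k) atTop atTop,
      ∀ f : ℕ → Fin d → UnitAddCircle, ∃ ψ : Y → Fin d → ℝ, Continuous ψ ∧
        (∀ p, DenseRange fun j : ℕ => (fun p : Y × (Fin d → UnitAddCircle) =>
          (R p.1, p.2 + fun i => ((ψ p.1 i : ℝ) : UnitAddCircle)))^[j] p) ∧
        ∃ t : Fin d → UnitAddCircle, ∀ k, ((fun p : Y × (Fin d → UnitAddCircle) =>
          (R p.1, p.2 + fun i => ((ψ p.1 i : ℝ) : UnitAddCircle)))^[n k] (y, t)).2 = f k,
      ∀ f : ℕ → Fin d → UnitAddCircle, ∃ ψ : Y → Fin d → UnitAddCircle, Continuous ψ ∧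
        ∃ t : Fin d → UnitAddCircle, ∀ k, ((fun p : Y × (Fin d → UnitAddCircle) =>
          (R p.1, p.2 + ψ p.1))^[n k] (y, t)).2 = f k] := by
  tfae_have 2 → 3 := fun H f => by
    obtain ⟨ψ, h1, -, t, h2⟩ := H f
    exact ⟨fun x i => ((ψ x i : ℝ) : UnitAddCircle),
      continuous_pi fun i => (AddCircle.continuous_mk' 1).comp ((continuous_apply i).comp h1),
      t, h2⟩
  tfae_have 1 → 2 := fun hg f => by
    have hy : Function.Injective fun j : ℕ => R^[j] y := by
      by_contra h
      have hfin : (Set.range fun j : ℕ => R^[j] y).Finite := by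
        obtain ⟨a, b, e, hab⟩ := Function.not_injective_iff.1 h
        wlog hlt : a < b generalizing a b
        · exact this b a e.symm hab.symm (by omega)
        refine ((Set.finite_lt_nat b).image fun j : ℕ => R^[j] y).subset ?_
        rintro _ ⟨j, rfl⟩
        induction j using Nat.strong_induction_on with
        | _ j ih =>
          by_cases hj : j < b
          · exact ⟨j, hj, rfl⟩
          · have e1 : R^[j] y = R^[j - b + a] y := by
              conv_lhs => rw [show j = j - b + b by omega]
              rw [Function.iterate_add_apply, Function.iterate_add_apply, e]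
            have := ih (j - b + a) (by omega)
            simpa only [e1] using this
      have h2 := (hmin y).closure_range
      rw [hfin.isClosed.closure_eq] at h2
      exact Set.infinite_univ (h2 ▸ hfin)
    obtain ⟨ψ, h1, t, h2, h3⟩ := ab_dense R hR hmin y hy hn hg f
    refine ⟨ψ, h1, ab_min R hR hmin (fun x i => ((ψ x i : ℝ) : UnitAddCircle))
      (continuous_pi fun i => (AddCircle.continuous_mk' 1).comp ((continuous_apply i).comp h1))
      y t h3, t, fun k => ?_⟩
    rw [ab_iter R (fun x i => ((ψ x i : ℝ) : UnitAddCircle))]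
    exact h2 k
  tfae_have 3 → 1 := fun H => ab_nec R hR y hn fun f => by
    obtain ⟨ψ, h1, t, h2⟩ := H fun k _ => f k
    refine ⟨fun x => ψ x ⟨0, hd⟩, (continuous_apply _).comp h1, t ⟨0, hd⟩, fun k => ?_⟩
    have := congrFun (h2 k) ⟨0, hd⟩
    rw [ab_iter] at this
    simpa only [Pi.add_apply, Finset.sum_apply] using this
  tfae_finish

end Pool.Agent.Results.MP_ddde1e_an.AnyBase
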