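import Pool.Agent.Lib.MP_ddde1e_an.IP.Comb
import Pool.Agent.Lib.MP_ddde1e_an.IP.Sys
import Pool.Agent.Lib.MP_ddde1e_an.IP.NecA
import Pool.Agent.Lib.MP_ddde1e_an.IP.NecB

set_option autoImplicit false

namespace Pool.Agent.Results.MP_ddde1e_an.Characterization

open Pool.Agent.Lib.MP_ddde1e_an.IP Filter Topology

/-- A set `S` of natural numbers is an interpolation set for distal systems exactly when there is no
sequence of positive integers such that `S` contains, for every `k`, a translate of the set of all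
subset sums of its first `k` terms. -/
theorem result (S : Set ℕ) :
    (∀ f : S → ℂ, (∃ C : ℝ, ∀ n, ‖f n‖ ≤ C) →
      ∃ (X : Type) (_ : MetricSpace X) (_ : CompactSpace X) (T : X ≃ₜ X),
        (∀ x y : X, x ≠ y → 0 < ⨅ n : ℤ, dist ((T ^ n) x) ((T ^ n) y)) ∧
        ∃ (x : X) (F : X → ℂ), Continuous F ∧ ∀ n : S, F ((T ^ (n : ℕ)) x) = f n) ↔
    ¬ ∃ x : ℕ → ℕ, (∀ i, 0 < x i) ∧
      ∀ k, ∃ n, ∀ I ⊆ Finset.range k, n + ∑ i ∈ I, x i ∈ S := by
  classical
  constructor
  · rintro hS ⟨x, hx, h⟩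
    obtain ⟨p, B, hB, h1, h2⟩ := exists_sparse h
    obtain ⟨X, _, _, T, hT, x0, F, hF, hf⟩ := hS (fun n => if (n : ℕ) ∈ B then 1 else 0)
      ⟨1, fun n => by split_ifs <;> simp⟩
    obtain ⟨y, -, hy⟩ := isCompact_univ.ultrafilter_le_nhds (p.map fun n : ℕ => (T ^ n) x0)
      (by simp)
    have key : ∀ (m : ℕ) (c : ℂ), (∀ᶠ n in (p : Filter ℕ), F ((T ^ (n + m)) x0) = c) →
        F ((T ^ m) y) = c := fun m c hc => by
      have h3 : Tendsto (fun n : ℕ => F ((T ^ m) ((T ^ n) x0))) p (𝓝 (F ((T ^ m) y))) :=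
        ((hF.comp (T ^ m).continuous).tendsto y).comp hy
      refine tendsto_nhds_unique h3 (tendsto_const_nhds.congr' ?_)
      filter_upwards [hc] with n hn
      rw [← hn, add_comm, pow_add]
      rfl
    have e1 : F y = 1 := key 0 1 (by
      filter_upwards [h1 ∅, hB] with n hn hnB
      exact (hf ⟨n, hn⟩).trans (if_pos hnB))
    have e0 : F y = 0 := mem_of_sums T hT x y (Z := {z | F z = 0})
      (isClosed_eq hF continuous_const) fun I hI => key _ 0 (by
        filter_upwards [h1 I, h2 _ (Finset.sum_pos (fun i _ => hx i) hI)] with n hn hnB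
        exact (hf ⟨_, hn⟩).trans (if_neg hnB))
    exact one_ne_zero (e1.symm.trans e0)
  · rintro h f ⟨C, hC⟩
    have hI : Interp ((fun n : ℕ => (n : ℤ)) '' S) := interp_of_no_sums fun ⟨x, hx, h1⟩ =>
      h ⟨x, hx, fun k => by
        obtain ⟨n, hn⟩ := h1 k
        obtain ⟨n0, -, h0⟩ := hn ∅ (Finset.empty_subset _)
        refine ⟨n0, fun I hI => ?_⟩
        obtain ⟨m, hm, e⟩ := hn I hI
        simp only [Finset.sum_empty] at h0 e
        rwa [show n0 + ∑ i ∈ I, x i = m by omega]⟩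
    let f' : ℤ → ℂ := fun n => if hn : n.toNat ∈ S then f ⟨_, hn⟩ else 0
    have hf' : ∀ n, ‖f' n‖ ≤ |C| := fun n => by
      simp only [f']
      split_ifs
      · exact (hC _).trans (le_abs_self C)
      · simp
    obtain ⟨g1, a1, b1, c1⟩ := hI |C| (fun n => (f' n).re)
      fun n => (Complex.abs_re_le_norm _).trans (hf' n)
    obtain ⟨g2, a2, b2, c2⟩ := hI |C| (fun n => (f' n).im)
      fun n => (Complex.abs_im_le_norm _).trans (hf' n)
    obtain ⟨X, i1, i2, T, hT, x, F, hF, hg⟩ := exists_system (C := |C| + |C|)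
      ((a1.pair a2).comp (φ := fun z : ℝ × ℝ => (z.1 : ℂ) + z.2 * Complex.I) (by fun_prop))
      fun n => (norm_add_le _ _).trans (add_le_add (by simpa using b1 n) (by simpa using b2 n))
    refine ⟨X, i1, i2, T, hT, x, F, hF, fun n => ?_⟩
    rw [hg, c1 _ ⟨n, n.2, rfl⟩, c2 _ ⟨n, n.2, rfl⟩, Complex.re_add_im]
    simp

end Pool.Agent.Results.MP_ddde1e_an.Characterization
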