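import Mathlib
import Pool.Agent.Lib.MP_ddde1e_an.H50Real

/-!
Sets whose gaps tend to infinity are interpolation sets for distal systems (complex values).
-/

namespace Pool.Agent.Results.MP_ddde1e_an.ComplexInterpolation

open Pool.Agent.Lib.MP_ddde1e_an Filter

/-- Let `S` be an infinite set of natural numbers whose consecutive gaps tend to infinity. Every
bounded complex function on `S` is `n ↦ F (T ^ n x)` for a distal homeomorphism `T` of a compact
metric space, a point `x` and a continuous function `F`. -/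
theorem result : ∀ S : Set ℕ, S.Infinite →
    Tendsto (fun k : ℕ => Nat.nth (· ∈ S) (k + 1) - Nat.nth (· ∈ S) k) atTop atTop →
    ∀ f : S → ℂ, (∃ C : ℝ, ∀ n, ‖f n‖ ≤ C) →
      ∃ (X : Type) (_ : MetricSpace X) (_ : CompactSpace X) (T : X ≃ₜ X),
        (∀ x y : X, x ≠ y → 0 < ⨅ n : ℤ, dist ((T ^ n) x) ((T ^ n) y)) ∧
        ∃ (x : X) (F : X → ℂ), Continuous F ∧ ∀ n : S, F ((T ^ (n : ℕ)) x) = f n := by
  rintro S hS hg f ⟨C, hC⟩
  have hn := Nat.nth_strictMono (p := (· ∈ S)) hS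
  let g : ℕ → ℂ := fun k => f ⟨_, Nat.nth_mem_of_infinite (p := (· ∈ S)) hS k⟩
  obtain ⟨ψ, hψ, x, hx⟩ := h50_real hn hg (fun k => (g k).re)
    fun k => (Complex.abs_re_le_norm _).trans (hC _)
  obtain ⟨χ, hχ, y, hy⟩ := h50_real hn hg (fun k => (g k).im)
    fun k => (Complex.abs_im_le_norm _).trans (hC _)
  refine ⟨(ℤ_[2] × UnitAddCircle) × (ℤ_[2] × UnitAddCircle), inferInstance, inferInstance,
    (skew ψ hψ).prodCongr (skew χ hχ), fun p q hpq => ?_, (x, y),
    fun p => (4 * (C + 1) * ‖p.1.2‖ - C : ℝ) + (4 * (C + 1) * ‖p.2.2‖ - C : ℝ) * Complex.I,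
    by fun_prop, ?_⟩
  · by_cases h : p.1 = q.1
    · obtain ⟨ε, hε, h1⟩ := h50_distal χ hχ p.2 q.2 fun h' => hpq (Prod.ext h h')
      refine hε.trans_le (le_ciInf fun m => ?_)
      rw [h50_prod, h50_prod, Prod.dist_eq]
      exact (h1 m).trans (le_max_right _ _)
    · obtain ⟨ε, hε, h1⟩ := h50_distal ψ hψ p.1 q.1 h
      refine hε.trans_le (le_ciInf fun m => ?_)
      rw [h50_prod, h50_prod, Prod.dist_eq]
      exact (h1 m).trans (le_max_left _ _)
  · rintro ⟨n, hnS⟩
    obtain ⟨k, rfl⟩ := Nat.subset_range_nth (p := (· ∈ S)) hnS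
    rw [← zpow_natCast, h50_prod, zpow_natCast, zpow_natCast, h50_pow, h50_pow]
    simp only
    rw [hx k, hy k]
    exact Complex.re_add_im _

end Pool.Agent.Results.MP_ddde1e_an.ComplexInterpolation
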